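import Pool.Agent.TH27.FS.Cross

/-!
# Lemma E: two deep three cycles commute on configurations without long constant runs
(job FS-K6 of MP_2b057c_an)
-/

set_option autoImplicit false
namespace Pool.Agent.TH27.FS
open Equiv

private theorem k6_good_D {A : Type} (T : TB A) (R : ℕ) : T.F.Good (T.D R) where
  sh x n p _ := by
    unfold TB.D
    refine forall_congr' fun k => forall_congr' fun _ => forall_congr' fun _ => ?_
    have := T.F.site_sh x n (p + k * T.d)
    rw [show p + k * T.d + n = p + n + k * T.d by ring] at this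
    exact this
  loc := by
    obtain ⟨r, hr⟩ := T.F.site_loc
    have hd := T.d_pos
    refine ⟨r + R * T.d.toNat, fun x y p h _ hc k hk hk' =>
      hr x y _ (fun i h1 h2 => h i ?_ ?_) (hc k hk hk')⟩
    · push_cast [Int.toNat_of_nonneg hd.le]
      nlinarith
    · push_cast [Int.toNat_of_nonneg hd.le]
      nlinarith
  inv x y hm p _ hc k hk hk' := hm.site (hc k hk hk')

private theorem k6_sub_mod {A : Type} (T : TB A) {Z' : Set (Fin T.n → A)} (h : Z' ⊆ T.Z)
    {x y : ℤ → A} (hm : (T.sub Z' h).F.Mod x y) : T.F.Mod x y := by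
  refine ⟨fun j hj => hm.1 j fun p hp => hj p ((T.sub_site Z' h x p).1 hp).1, fun q hq => ?_⟩
  by_cases hc : (T.sub Z' h).site x q
  · exact h (hm.2 q hc)
  · have : cont T.n y q = cont T.n x q := by
      apply cont_congr
      intro i h0 hl
      apply hm.1
      intro r hr hw
      change r ≤ q + i ∧ q + i < r + T.n at hw
      have hr' := ((T.sub_site Z' h x r).1 hr).1
      have hne : q ≠ r := by rintro rfl; exact hc hr
      rcases T.F.disj' hq hr' hne with h | h <;> omega
    rw [this]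
    exact T.F.memZ x q hq

/-- the deep three cycle as a map -/
private noncomputable def df {A : Type} (T : TB A) {Z' : Set (Fin T.n → A)} (h : Z' ⊆ T.Z)
    (R : ℕ) (π : Perm (Fin T.n → A)) (x : ℤ → A) : ℤ → A :=
  actf ((T.sub Z' h).F.ctl ((T.sub Z' h).D R) π) x

section

variable {A : Type} (T : TB A) {Z' : Set (Fin T.n → A)} (h : Z' ⊆ T.Z) (R : ℕ)
  {π : Perm (Fin T.n → A)} (hπ : (T.sub Z' h).F.OK π)

include hπ

private theorem df_mem : (T.sub Z' h).F.ctl ((T.sub Z' h).D R) π ∈ (T.sub Z' h).F.CtlG :=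
  Fam.ctl_mem (k6_good_D _ R) hπ

private theorem df_mod (x : ℤ → A) : T.F.Mod x (df T h R π x) :=
  k6_sub_mod T h (actf_mod (df_mem T h R hπ) x)

private theorem df_D {x : ℤ → A} {q : ℤ} (hq : (T.sub Z' h).D R x q) :
    cont T.n (df T h R π x) q = π (cont T.n x q) := by
  classical
  have hs : (T.sub Z' h).site x q := by
    have := hq 0 (by omega) (by omega)
    simpa using this
  have := cont_actf (df_mem T h R hπ) (x := x) (p := q) hs
  rw [Fam.ctl, if_pos ⟨hs, hq⟩] at this
  exact this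

private theorem df_not_D {x : ℤ → A} {q : ℤ} (hq : T.site x q) (hn : ¬ (T.sub Z' h).D R x q) :
    cont T.n (df T h R π x) q = cont T.n x q := by
  classical
  by_cases hs : (T.sub Z' h).site x q
  · have := cont_actf (df_mem T h R hπ) (x := x) (p := q) hs
    rw [Fam.ctl, if_neg (fun hh => hn hh.2)] at this
    exact this
  · apply cont_congr
    intro i h0 hl
    apply actf_out (df_mem T h R hπ)
    intro r hr _ hw
    change r ≤ q + i ∧ q + i < r + T.n at hw
    have hr' := ((T.sub_site Z' h x r).1 hr).1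
    have hne : q ≠ r := by rintro rfl; exact hs hr
    rcases T.F.disj' hq hr' hne with h | h <;> omega

end

private theorem k6_key {A : Type} (T : TB A) {Zh Zv : Set (Fin T.n → A)} (hh : Zh ⊆ T.Z)
    (hv : Zv ⊆ T.Z) {a c e : Fin T.n → A} (hint : ∀ z, z ∈ Zh → z ∈ Zv → z = a)
    (ha' : a ∈ Zv) (hc : c ∈ Zv) (he : e ∈ Zv) (h2 : D3 a c e)
    {R R₂ : ℕ} (hR₂ : 1 ≤ R₂) (hR : 3 * R₂ ≤ R) (x : ℤ → A)
    (hx : ∀ (p : ℤ), ∀ z ∈ T.Z, ¬ ∀ k : ℤ, 0 ≤ k → k < R₂ →
      T.site x (p + k * T.d) ∧ cont T.n x (p + k * T.d) = z) :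
    (∀ p m : ℤ, -R ≤ m → m ≤ R → (T.sub Zh hh).D R x p → ¬ (T.sub Zv hv).D R x (p + m * T.d)) ∧
    ∀ p, (T.sub Zh hh).D R (df T hv R (tc a c e) x) p ↔ (T.sub Zh hh).D R x p := by
  have hok : (T.sub Zv hv).F.OK (tc a c e) := Fam.ok_tc (F := (T.sub Zv hv).F) ha' hc he
  have part1 : ∀ p m : ℤ, -R ≤ m → m ≤ R → (T.sub Zh hh).D R x p →
      ¬ (T.sub Zv hv).D R x (p + m * T.d) := by
    intro p m hm1 hm2 hph hpv
    -- common boxes
    obtain ⟨s, hs1, hs2, hs3, hs4⟩ : ∃ s : ℤ, -R ≤ s ∧ s + R ≤ R ∧ m - R ≤ s ∧ s + R ≤ m + R := by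
      by_cases h0 : 0 ≤ m
      · exact ⟨m - R, by omega, by omega, by omega, by omega⟩
      · exact ⟨-R, by omega, by omega, by omega, by omega⟩
    refine hx (p + s * T.d) a (hv ha') fun k hk0 hk1 => ?_
    have e1 := hph (s + k) (by omega) (by omega)
    have e2 := hpv (s + k - m) (by omega) (by omega)
    have e3 : (T.sub Zh hh).site x (p + s * T.d + k * T.d) := by
      have : p + s * T.d + k * T.d = p + (s + k) * T.d := by ring
      rw [this]; exact e1
    have e4 : (T.sub Zv hv).site x (p + s * T.d + k * T.d) := by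
      have : p + s * T.d + k * T.d = p + m * T.d + (s + k - m) * T.d := by ring
      rw [this]; exact e2
    rw [T.sub_site] at e3 e4
    exact ⟨e3.1, hint _ e3.2 e4.2⟩
  refine ⟨part1, fun p => ?_⟩
  have hmod := df_mod T hv R hok x
  constructor
  · intro hp
    by_cases hex : ∃ m : ℤ, -R ≤ m ∧ m ≤ R ∧ (T.sub Zv hv).D R x (p + m * T.d)
    · exfalso
      obtain ⟨m, hm1, hm2, hm3⟩ := hex
      obtain ⟨s, hs1, hs2, hs3, hs4⟩ :
          ∃ s : ℤ, -R ≤ s ∧ s + R ≤ R ∧ m - R ≤ s ∧ s + R ≤ m + R := by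
        by_cases h0 : 0 ≤ m
        · exact ⟨m - R, by omega, by omega, by omega, by omega⟩
        · exact ⟨-R, by omega, by omega, by omega, by omega⟩
      -- contents in the common run
      have hV : ∀ k : ℤ, s ≤ k → k ≤ s + R → (T.sub Zv hv).site x (p + k * T.d) := by
        intro k k1 k2
        have e2 := hm3 (k - m) (by omega) (by omega)
        have : p + k * T.d = p + m * T.d + (k - m) * T.d := by ring
        rw [this]; exact e2
      have hT : ∀ k : ℤ, s ≤ k → k ≤ s + R → T.site x (p + k * T.d) := fun k k1 k2 =>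
        ((T.sub_site Zv hv x _).1 (hV k k1 k2)).1
      have hmodv := actf_mod (df_mem T hv R hok) x
      have hA : ∀ k : ℤ, s ≤ k → k ≤ s + R →
          cont T.n (df T hv R (tc a c e) x) (p + k * T.d) = a := by
        intro k k1 k2
        have e1 := hp k (by omega) (by omega)
        have e2 : (T.sub Zv hv).site (df T hv R (tc a c e) x) (p + k * T.d) :=
          hmodv.site (hV k k1 k2)
        rw [T.sub_site] at e1 e2
        exact hint _ e1.2 e2.2
      have hno : ∀ k : ℤ, s ≤ k → k ≤ s + R → ¬ (T.sub Zv hv).D R x (p + k * T.d) →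
          cont T.n x (p + k * T.d) = a := by
        intro k k1 k2 hn
        rw [← df_not_D T hv R hok (hT k k1 k2) hn]
        exact hA k k1 k2
      have hyes : ∀ k : ℤ, s ≤ k → k ≤ s + R → (T.sub Zv hv).D R x (p + k * T.d) →
          cont T.n x (p + k * T.d) = e := by
        intro k k1 k2 hn
        have e1 := hA k k1 k2
        rw [df_D T hv R hok hn] at e1
        exact (tc a c e).injective (e1.trans (tc_c h2).symm)
      -- first block
      obtain ⟨k1, k10, k11, hk1⟩ : ∃ k : ℤ, 0 ≤ k ∧ k < R₂ ∧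
          (T.sub Zv hv).D R x (p + (s + k) * T.d) := by
        by_contra hcon
        push Not at hcon
        refine hx (p + s * T.d) a (hv ha') fun k hk0 hk1 => ?_
        have : p + s * T.d + k * T.d = p + (s + k) * T.d := by ring
        rw [this]
        exact ⟨hT _ (by omega) (by omega), hno _ (by omega) (by omega) (hcon k hk0 hk1)⟩
      -- third block
      obtain ⟨k3, k30, k31, hk3⟩ : ∃ k : ℤ, 0 ≤ k ∧ k < R₂ ∧
          (T.sub Zv hv).D R x (p + (s + 2 * R₂ + k) * T.d) := by
        by_contra hcon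
        push Not at hcon
        refine hx (p + (s + 2 * R₂) * T.d) a (hv ha') fun k hk0 hk1 => ?_
        have : p + (s + 2 * R₂) * T.d + k * T.d = p + (s + 2 * R₂ + k) * T.d := by ring
        rw [this]
        exact ⟨hT _ (by omega) (by omega), hno _ (by omega) (by omega) (hcon k hk0 hk1)⟩
      -- second block
      refine hx (p + (s + R₂) * T.d) e (hv he) fun k hk0 hk1' => ?_
      have : p + (s + R₂) * T.d + k * T.d = p + (s + R₂ + k) * T.d := by ring
      rw [this]
      refine ⟨hT _ (by omega) (by omega), hyes _ (by omega) (by omega) ?_⟩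
      intro i hi1 hi2
      by_cases hi : s + R₂ + k + i ≤ s + k1 + R
      · have e1 := hk1 (R₂ + k + i - k1) (by omega) (by omega)
        have : p + (s + R₂ + k) * T.d + i * T.d =
          p + (s + k1) * T.d + (R₂ + k + i - k1) * T.d := by ring
        change (T.sub Zv hv).site x (p + (s + R₂ + k) * T.d + i * T.d)
        rw [this]; exact e1
      · have e1 := hk3 (k + i - R₂ - k3) (by omega) (by omega)
        have : p + (s + R₂ + k) * T.d + i * T.d =
          p + (s + 2 * R₂ + k3) * T.d + (k + i - R₂ - k3) * T.d := by ring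
        change (T.sub Zv hv).site x (p + (s + R₂ + k) * T.d + i * T.d)
        rw [this]; exact e1
    · push Not at hex
      intro k hk1 hk2
      have e1 := hp k hk1 hk2
      change (T.sub Zh hh).site _ (p + k * T.d) at e1
      change (T.sub Zh hh).site _ (p + k * T.d)
      rw [T.sub_site] at e1 ⊢
      have e2 : T.site x (p + k * T.d) := hmod.symm.site e1.1
      rw [df_not_D T hv R hok e2 (hex k hk1 hk2)] at e1
      exact ⟨e2, e1.2⟩
  · intro hp k hk1 hk2
    have e1 := hp k hk1 hk2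
    change (T.sub Zh hh).site _ (p + k * T.d) at e1
    change (T.sub Zh hh).site _ (p + k * T.d)
    rw [T.sub_site] at e1 ⊢
    refine ⟨hmod.site e1.1, ?_⟩
    rw [df_not_D T hv R hok e1.1 (part1 p k hk1 hk2 hp)]
    exact e1.2

/-- LEMMA E -/
theorem TB.comm_of_no_runs {A : Type} (T : TB A) {Zh Zv : Set (Fin T.n → A)} (hh : Zh ⊆ T.Z)
    (hv : Zv ⊆ T.Z) {a b c d e : Fin T.n → A} (hint : ∀ z, z ∈ Zh → z ∈ Zv → z = a)
    (ha : a ∈ Zh) (ha' : a ∈ Zv) (hb : b ∈ Zh) (hd : d ∈ Zh) (hc : c ∈ Zv) (he : e ∈ Zv)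
    (h1 : D3 a b d) (h2 : D3 a c e) {R R₂ : ℕ} (hR₂ : 1 ≤ R₂) (hR : 3 * R₂ ≤ R) (x : ℤ → A)
    (hx : ∀ (p : ℤ), ∀ z ∈ T.Z, ¬ ∀ k : ℤ, 0 ≤ k → k < R₂ →
      T.site x (p + k * T.d) ∧ cont T.n x (p + k * T.d) = z) :
    actf ((T.sub Zh hh).F.ctl ((T.sub Zh hh).D R) (tc a b d))
        (actf ((T.sub Zv hv).F.ctl ((T.sub Zv hv).D R) (tc a c e)) x) =
      actf ((T.sub Zv hv).F.ctl ((T.sub Zv hv).D R) (tc a c e))
        (actf ((T.sub Zh hh).F.ctl ((T.sub Zh hh).D R) (tc a b d)) x) := by
  have hokh : (T.sub Zh hh).F.OK (tc a b d) := Fam.ok_tc (F := (T.sub Zh hh).F) ha hb hd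
  have hokv : (T.sub Zv hv).F.OK (tc a c e) := Fam.ok_tc (F := (T.sub Zv hv).F) ha' hc he
  obtain ⟨P1, Q1⟩ := k6_key T hh hv hint ha' hc he h2 hR₂ hR x hx
  obtain ⟨P2, Q2⟩ := k6_key T hv hh (fun z h1 h2 => hint z h2 h1) ha hb hd h1 hR₂ hR x hx
  change df T hh R (tc a b d) (df T hv R (tc a c e) x) =
    df T hv R (tc a c e) (df T hh R (tc a b d) x)
  have mv := df_mod T hv R hokv x
  have mh := df_mod T hh R hokh x
  have mhv := df_mod T hh R hokh (df T hv R (tc a c e) x)
  have mvh := df_mod T hv R hokv (df T hh R (tc a b d) x)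
  funext j
  by_cases hj : ∃ q, T.site x q ∧ q ≤ j ∧ j < q + T.n
  · obtain ⟨q, hq, hqj⟩ := hj
    obtain ⟨i, rfl⟩ := exists_fin hqj
    have hqv : T.site (df T hv R (tc a c e) x) q := mv.site hq
    have hqh : T.site (df T hh R (tc a b d) x) q := mh.site hq
    refine congrFun (?_ : cont T.n (df T hh R (tc a b d) (df T hv R (tc a c e) x)) q =
      cont T.n (df T hv R (tc a c e) (df T hh R (tc a b d) x)) q) i
    by_cases c1 : (T.sub Zh hh).D R x q
    · have c2 : ¬ (T.sub Zv hv).D R x q := by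
        have := P1 q 0 (by omega) (by omega) c1
        simpa using this
      rw [df_D T hh R hokh ((Q1 q).2 c1), df_not_D T hv R hokv hq c2,
        df_not_D T hv R hokv hqh (fun h => c2 ((Q2 q).1 h)), df_D T hh R hokh c1]
    · by_cases c2 : (T.sub Zv hv).D R x q
      · rw [df_not_D T hh R hokh hqv (fun h => c1 ((Q1 q).1 h)), df_D T hv R hokv c2,
          df_D T hv R hokv ((Q2 q).2 c2), df_not_D T hh R hokh hq c1]
      · rw [df_not_D T hh R hokh hqv (fun h => c1 ((Q1 q).1 h)), df_not_D T hv R hokv hq c2,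
          df_not_D T hv R hokv hqh (fun h => c2 ((Q2 q).1 h)), df_not_D T hh R hokh hq c1]
  · push Not at hj
    have hout : ∀ y, (∀ q, T.site y q → T.site x q) → ∀ p, T.F.site y p →
        ¬ (p ≤ j ∧ j < p + T.n) := fun y hy p hp hw => by
      have := hj p (hy p hp) hw.1
      omega
    rw [mhv.1 j (hout _ fun q hq => mv.symm.site hq), mv.1 j (hout _ fun q hq => hq),
      mvh.1 j (hout _ fun q hq => mh.symm.site hq), mh.1 j (hout _ fun q hq => hq)]

end Pool.Agent.TH27.FS
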