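import Pool.Agent.TH27.FS.Cross

/-!
# Periodic box points and the orbit three cycle (job FS-K7 of MP_2b057c_an)
-/

set_option autoImplicit false
namespace Pool.Agent.TH27.FS
open Equiv

/-- the periodic point with all boxes of content `z` : `(M u z v)^∞`, a box at `0` -/
noncomputable def TB.py {A : Type} (T : TB A) (z : Fin T.n → A) : ℤ → A := fun j =>
  let i : ℤ := (j + 2 * T.S.μ) % T.d
  if i < T.S.μ then T.S.wd T.M i
  else if i < 2 * T.S.μ then T.S.wd T.u (i - T.S.μ)
  else if h : 0 ≤ i - 2 * T.S.μ ∧ i - 2 * T.S.μ < T.n then z ⟨(i - 2 * T.S.μ).toNat, by omega⟩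
  else T.S.wd T.v (i - 2 * T.S.μ - T.n)

/-- the letter number `i` of the block `M u z v` -/
private noncomputable def blk {A : Type} (T : TB A) (z : Fin T.n → A) (i : ℤ) : A :=
  if i < T.S.μ then T.S.wd T.M i
  else if i < 2 * T.S.μ then T.S.wd T.u (i - T.S.μ)
  else if h : 0 ≤ i - 2 * T.S.μ ∧ i - 2 * T.S.μ < T.n then z ⟨(i - 2 * T.S.μ).toNat, by omega⟩
  else T.S.wd T.v (i - 2 * T.S.μ - T.n)

private theorem py_blk {A : Type} (T : TB A) (z : Fin T.n → A) (j : ℤ) :
    T.py z j = blk T z ((j + 2 * T.S.μ) % T.d) := rfl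

private theorem py_at {A : Type} (T : TB A) (z : Fin T.n → A) (k i : ℤ) (h0 : 0 ≤ i)
    (h1 : i < T.d) : T.py z (k * T.d - 2 * T.S.μ + i) = blk T z i := by
  rw [py_blk, show k * T.d - 2 * T.S.μ + i + 2 * T.S.μ = i + k * T.d by ring,
    Int.add_mul_emod_self_right, Int.emod_eq_of_lt h0 h1]

private theorem py_at' {A : Type} (T : TB A) (z : Fin T.n → A) (k i j : ℤ) (h0 : 0 ≤ i)
    (h1 : i < T.d) (hj : j = k * T.d - 2 * T.S.μ + i) : T.py z j = blk T z i := by
  rw [hj, py_at T z k i h0 h1]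

private theorem py_per {A : Type} (T : TB A) (z : Fin T.n → A) (j k : ℤ) :
    T.py z (j + k * T.d) = T.py z j := by
  rw [py_blk, py_blk, show j + k * T.d + 2 * T.S.μ = j + 2 * T.S.μ + k * T.d by ring,
    Int.add_mul_emod_self_right]

theorem TB.py_site {A : Type} (T : TB A) {z : Fin T.n → A} (hz : z ∈ T.Z) (k : ℤ) :
    T.site (T.py z) (k * T.d) ∧ cont T.n (T.py z) (k * T.d) = z := by
  have hμ := T.S.hμ
  have hd : T.d = T.n + 3 * T.S.μ := rfl
  have hc : cont T.n (T.py z) (k * T.d) = z := by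
    funext i
    have hi := i.2
    change T.py z (k * T.d + (i : ℕ)) = z i
    rw [py_at' T z k (2 * T.S.μ + (i : ℕ)) _ (by omega) (by omega) (by ring), blk,
      if_neg (by omega), if_neg (by omega), dif_pos (by omega)]
    congr 1
    apply Fin.ext
    simp
  refine ⟨⟨?_, ?_, by rwa [hc], ?_, ?_⟩, hc⟩
  · intro i h0 h1
    rw [py_at' T z k i _ (by omega) (by omega) rfl, blk, if_pos h1]
  · intro i h0 h1
    rw [py_at' T z k (T.S.μ + i) _ (by omega) (by omega) (by ring), blk, if_neg (by omega),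
      if_pos (by omega)]
    congr 1; ring
  · intro i h0 h1
    rw [py_at' T z k (2 * T.S.μ + T.n + i) _ (by omega) (by omega) (by ring), blk,
      if_neg (by omega), if_neg (by omega), dif_neg (by omega)]
    congr 1; ring
  · intro i h0 h1
    rw [py_at' T z (k + 1) i _ (by omega) (by omega) (by rw [add_mul]; rw [hd]; ring), blk,
      if_pos h1]

private theorem site_blk {A : Type} (T : TB A) {z : Fin T.n → A} {x : ℤ → A} {q : ℤ}
    (h : T.site x q) (hz : cont T.n x q = z) (i : ℤ) (h0 : 0 ≤ i) (h1 : i < T.d) :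
    x (q - 2 * T.S.μ + i) = blk T z i := by
  have hμ := T.S.hμ
  have hd : T.d = T.n + 3 * T.S.μ := rfl
  obtain ⟨k1, k2, k3, k4, k5⟩ := h
  subst hz
  unfold blk
  by_cases c1 : i < T.S.μ
  · rw [if_pos c1]
    exact k1 i h0 c1
  rw [if_neg c1]
  by_cases c2 : i < 2 * T.S.μ
  · rw [if_pos c2]
    rw [← k2 (i - T.S.μ) (by omega) (by omega)]
    congr 1; ring
  rw [if_neg c2]
  by_cases c3 : i - 2 * T.S.μ < T.n
  · rw [dif_pos ⟨by omega, c3⟩]
    change _ = x (q + ((i - 2 * T.S.μ).toNat : ℕ))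
    congr 1
    rw [Int.toNat_of_nonneg (by omega)]; ring
  · rw [dif_neg (by omega), ← k4 (i - 2 * T.S.μ - T.n) (by omega) (by omega)]
    congr 1; ring

/-- the configuration is determined by its boxes -/
theorem TB.py_unique {A : Type} (T : TB A) {z : Fin T.n → A} {x : ℤ → A} {p : ℤ}
    (h : ∀ k : ℤ, T.site x (p + k * T.d) ∧ cont T.n x (p + k * T.d) = z) :
    sh p x = T.py z := by
  funext j
  have hd := T.d_pos
  have e1 := Int.emod_add_mul_ediv (j + 2 * T.S.μ) T.d
  have e2 := Int.emod_nonneg (j + 2 * T.S.μ) hd.ne'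
  have e3 := Int.emod_lt_of_pos (j + 2 * T.S.μ) hd
  rw [py_blk, ← site_blk T (h ((j + 2 * T.S.μ) / T.d)).1 (h _).2 _ e2 e3, sh_apply]
  congr 1
  linarith

theorem TB.py_LP {A : Type} (T : TB A) {z : Fin T.n → A} (hz : z ∈ T.Z) :
    LP T.d.toNat (T.py z) := by
  have hd := T.d_pos
  have hd' : ((T.d.toNat : ℕ) : ℤ) = T.d := Int.toNat_of_nonneg hd.le
  constructor
  · intro i
    rw [hd']
    have := py_per T z i 1
    rwa [one_mul] at this
  · intro s h1 h2
    by_contra hc
    push Not at hc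
    have e1 : sh s (T.py z) = T.py z := funext hc
    have e2 := (T.py_site hz 0).1
    rw [zero_mul] at e2
    have e3 : T.site (T.py z) (0 + s) := by
      refine (T.F.site_sh (T.py z) s 0).1 ?_
      change T.site (sh s (T.py z)) 0
      rwa [e1]
    rw [zero_add] at e3
    have e4 := TB.site_dist e2 e3 (by omega)
    omega

/-- the orbit of `py z` -/
noncomputable def TB.orb {A : Type} (T : TB A) {z : Fin T.n → A} (hz : z ∈ T.Z) :
    Orb A T.d.toNat := Quotient.mk _ (⟨T.py z, T.py_LP hz⟩ : PP A T.d.toNat)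

theorem TB.orb_inj {A : Type} (T : TB A) {z z' : Fin T.n → A} (hz : z ∈ T.Z) (hz' : z' ∈ T.Z)
    (h : T.orb hz = T.orb hz') : z = z' := by
  have hd := T.d_pos
  obtain ⟨m, hm⟩ : ∃ m : ℤ, T.py z' = sh m (T.py z) := Quotient.exact h
  have e1 := (T.py_site hz' 0)
  rw [zero_mul, hm] at e1
  obtain ⟨e1, e2⟩ := e1
  have e3 : T.site (T.py z) (0 + m) := (T.F.site_sh (T.py z) m 0).1 e1
  rw [cont_sh] at e2
  rw [zero_add] at e2 e3
  have d1 := Int.emod_add_mul_ediv m T.d
  have d2 := Int.emod_nonneg m hd.ne'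
  have d3 := Int.emod_lt_of_pos m hd
  have e4 := T.py_site hz (m / T.d)
  have e5 : m = m / T.d * T.d := by
    by_contra hne
    have e6 := TB.site_dist e4.1 e3 (lt_of_le_of_ne (by linarith) (Ne.symm hne))
    linarith
  rw [← e5] at e4
  rw [← e4.2, ← e2]

private theorem orb_mk_eq {A : Type} (T : TB A) {z : Fin T.n → A} (hz : z ∈ T.Z)
    (x : PP A T.d.toNat) {p : ℤ} (h : sh p x.1 = T.py z) :
    (Quotient.mk _ x : Orb A T.d.toNat) = T.orb hz :=
  Quotient.sound (⟨p, h.symm⟩ : x ≈ (⟨T.py z, T.py_LP hz⟩ : PP A T.d.toNat))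

private theorem per_sites {A : Type} (T : TB A) {x : ℤ → A} (hx : ∀ i, x (i + T.d) = x i)
    {p : ℤ} (h : T.site x p) (k : ℤ) :
    T.site x (p + k * T.d) ∧ cont T.n x (p + k * T.d) = cont T.n x p := by
  have hp : ∀ k i : ℤ, x (i + k * T.d) = x i := by
    intro k
    induction k using Int.induction_on with
    | zero => intro i; simp
    | succ k ih =>
      intro i
      rw [show i + ((k : ℤ) + 1) * T.d = i + k * T.d + T.d by ring, hx, ih]
    | pred k ih =>
      intro i
      rw [← hx, show i + (-(k : ℤ) - 1) * T.d + T.d = i + -k * T.d by ring, ih]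
  have hs : sh (k * T.d) x = x := funext fun i => hp k i
  constructor
  · refine (T.F.site_sh x (k * T.d) p).1 ?_
    rwa [hs]
  · rw [← cont_sh, hs]

/-- the box three cycle acts as a three cycle on orbits -/
theorem TB.theta_g {A : Type} (T : TB A) {a b c : Fin T.n → A} (ha : a ∈ T.Z) (hb : b ∈ T.Z)
    (hc : c ∈ T.Z) (habc : D3 a b c) :
    theta A T.d.toNat (T.g ha hb hc) = tc (T.orb ha) (T.orb hb) (T.orb hc) := by
  classical
  have hd := T.d_pos
  have hd' : ((T.d.toNat : ℕ) : ℤ) = T.d := Int.toNat_of_nonneg hd.le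
  have hD : D3 (T.orb ha) (T.orb hb) (T.orb hc) :=
    ⟨fun h => habc.1 (T.orb_inj _ _ h), fun h => habc.2.1 (T.orb_inj _ _ h),
      fun h => habc.2.2 (T.orb_inj _ _ h)⟩
  have mem := Fam.ctl_mem T.F.good_true (Fam.ok_tc (F := T.F) ha hb hc)
  ext q
  induction q using Quotient.inductionOn with
  | _ x =>
  rw [theta_mk]
  have hper : ∀ i, x.1 (i + T.d) = x.1 i := by
    have := x.2.1
    rwa [hd'] at this
  -- the main computation
  have key : ∀ p : ℤ, T.site x.1 p → ∀ (z w : Fin T.n → A) (_ : z ∈ T.Z) (hw : w ∈ T.Z),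
      cont T.n x.1 p = z → tc a b c z = w →
      (Quotient.mk _ (mapPP (T.g ha hb hc) x) : Orb A T.d.toNat) = T.orb hw := by
    intro p hp z w _ hw hcz hzw
    refine orb_mk_eq T hw _ (p := p) (T.py_unique fun k => ?_)
    obtain ⟨s1, s2⟩ := per_sites T hper hp k
    change T.site (actf (T.F.ctl (fun _ _ => True) (tc a b c)) x.1) _ ∧
      cont T.n (actf (T.F.ctl (fun _ _ => True) (tc a b c)) x.1) _ = w
    refine ⟨(actf_mod mem x.1).site s1, ?_⟩
    rw [cont_actf mem s1, s2, hcz, Fam.ctl, if_pos ⟨s1, trivial⟩, hzw]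
  by_cases hex : ∃ p : ℤ, T.site x.1 p ∧
      (cont T.n x.1 p = a ∨ cont T.n x.1 p = b ∨ cont T.n x.1 p = c)
  · obtain ⟨p, hp, h⟩ := hex
    rcases h with h | h | h
    · have e1 : (Quotient.mk _ x : Orb A T.d.toNat) = T.orb ha :=
        orb_mk_eq T ha x (p := p) (T.py_unique fun k => by
          obtain ⟨s1, s2⟩ := per_sites T hper hp k
          exact ⟨s1, s2.trans h⟩)
      rw [e1, tc_a hD, key p hp a b ha hb h (tc_a habc)]
    · have e1 : (Quotient.mk _ x : Orb A T.d.toNat) = T.orb hb :=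
        orb_mk_eq T hb x (p := p) (T.py_unique fun k => by
          obtain ⟨s1, s2⟩ := per_sites T hper hp k
          exact ⟨s1, s2.trans h⟩)
      rw [e1, tc_b hD, key p hp b c hb hc h (tc_b habc)]
    · have e1 : (Quotient.mk _ x : Orb A T.d.toNat) = T.orb hc :=
        orb_mk_eq T hc x (p := p) (T.py_unique fun k => by
          obtain ⟨s1, s2⟩ := per_sites T hper hp k
          exact ⟨s1, s2.trans h⟩)
      rw [e1, tc_c hD, key p hp c a hc ha h (tc_c habc)]
  · push Not at hex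
    have hno : ∀ (z : Fin T.n → A) (hz : z ∈ T.Z), (z = a ∨ z = b ∨ z = c) →
        (Quotient.mk _ x : Orb A T.d.toNat) ≠ T.orb hz := by
      intro z hz hzz he
      obtain ⟨m, hm⟩ : ∃ m : ℤ, T.py z = sh m x.1 := Quotient.exact he
      have e1 := (T.py_site hz 0)
      rw [zero_mul, hm] at e1
      obtain ⟨e1, e2⟩ := e1
      have e3 : T.site x.1 (0 + m) := (T.F.site_sh x.1 m 0).1 e1
      rw [cont_sh] at e2
      have := hex _ e3
      rw [e2] at this
      tauto
    refine Eq.trans ?_ (tc_of_ne (hno a ha (Or.inl rfl)) (hno b hb (Or.inr (Or.inl rfl)))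
      (hno c hc (Or.inr (Or.inr rfl)))).symm
    refine congrArg (fun y : PP A T.d.toNat => (Quotient.mk _ y : Orb A T.d.toNat)) ?_
    apply Subtype.ext
    change actf (T.F.ctl (fun _ _ => True) (tc a b c)) x.1 = x.1
    funext j
    apply amalg_not
    intro p
    rw [move_one]
    unfold Fam.ctl
    by_cases hp : T.F.site x.1 p
    · rw [if_pos ⟨hp, trivial⟩]
      obtain ⟨n1, n2, n3⟩ := hex p hp
      exact tc_of_ne n1 n2 n3
    · rw [if_neg (fun h => hp h.1)]; rfl

end Pool.Agent.TH27.FS
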