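import Pool.Agent.TH27.FS.Cross

/-!
# Right deepness, step R1a (job FS-K9 of MP_2b057c_an)
-/

set_option autoImplicit false
namespace Pool.Agent.TH27.FS
open Equiv

/-- boxes `u z v M` not followed by `u` -/
private def sB {A : Type} (T : TB A) (x : ℤ → A) (p : ℤ) : Prop :=
  T.S.occ T.u x (p - T.S.μ) ∧ cont T.n x p ∈ T.Z ∧ T.S.occ T.v x (p + T.n) ∧
    T.S.occ T.M x (p + T.n + T.S.μ) ∧ ¬ T.S.occ T.u x (p + T.n + 2 * T.S.μ)

private theorem sB_occ {A : Type} {T : TB A} {x : ℤ → A} {p q : ℤ} (h : sB T x p)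
    (hq : T.S.occ T.u x q) (h1 : p - T.S.μ < q) : p + T.n + 2 * T.S.μ + 1 ≤ q := by
  obtain ⟨k1, k2, k3, k4, k5⟩ := h
  have e5 := MS.occ_clean k1 k3 (T.hZ _ k2) hq h1
  by_cases e6 : q = p + T.n
  · subst e6; exact absurd (MS.occ_inj hq k3) T.huv
  have e7 := MS.occ_no k3 hq (by omega)
  by_cases e8 : q = p + T.n + T.S.μ
  · subst e8; exact absurd (MS.occ_inj k4 hq) T.hMu
  have e9 := MS.occ_no k4 hq (by omega)
  by_cases e10 : q = p + T.n + 2 * T.S.μ
  · subst e10; exact absurd hq k5
  omega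

private theorem sB_dist {A : Type} {T : TB A} {x : ℤ → A} {p q : ℤ} (hp : sB T x p)
    (hq : sB T x q) (h : p < q) : p + T.n + 3 * T.S.μ + 1 ≤ q := by
  have := sB_occ hp hq.1 (by omega)
  omega

private def fB {A : Type} (T : TB A) : Fam A T.n where
  site := sB T
  Z := T.Z
  site_sh x n p := by
    unfold sB
    simp only [MS.occ_sh, cont_sh]
    rw [show p - T.S.μ + n = p + n - T.S.μ by ring, show p + T.n + n = p + n + T.n by ring,
      show p + T.n + T.S.μ + n = p + n + T.n + T.S.μ by ring,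
      show p + T.n + 2 * T.S.μ + n = p + n + T.n + 2 * T.S.μ by ring]
  site_loc := by
    refine ⟨T.n + 3 * T.S.μ, fun x y p h hs => ?_⟩
    push_cast at h
    obtain ⟨h1, h2, h3, h4, h5⟩ := hs
    refine ⟨(MS.occ_congr' fun j h4 h5 => h j (by omega) (by omega)).1 h1, ?_,
      (MS.occ_congr' fun j h4 h5 => h j (by omega) (by omega)).1 h3,
      (MS.occ_congr' fun j h4 h5 => h j (by omega) (by omega)).1 h4,
      fun h6 => h5 ((MS.occ_congr' fun j h4 h5 => h j (by omega) (by omega)).2 h6)⟩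
    rwa [cont_congr fun i h4 h5 => (h _ (by omega) (by omega)).symm]
  memZ x p h := h.2.1
  disj x p q hp hq h := by
    have := sB_dist hp hq h
    omega
  inv x y h1 h2 p hp := by
    have hμ := T.S.hμ
    have hd : ∀ q, sB T x q → q ≠ p → p + T.n + 3 * T.S.μ + 1 ≤ q ∨
        q + T.n + 3 * T.S.μ + 1 ≤ p := by
      intro q hq hne
      rcases lt_or_gt_of_ne hne with h | h
      · exact Or.inr (sB_dist hq hp h)
      · exact Or.inl (sB_dist hp hq h)
    have hl : ∀ j, p - T.S.μ ≤ j → j < p → y j = x j := by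
      intro j h3 h4
      apply h1
      intro q hq hj
      by_cases hne : q = p
      · omega
      · rcases hd q hq hne with h | h <;> omega
    have hr : ∀ j, p + T.n ≤ j → j < p + T.n + 3 * T.S.μ → y j = x j := by
      intro j h3 h4
      apply h1
      intro q hq hj
      by_cases hne : q = p
      · omega
      · rcases hd q hq hne with h | h <;> omega
    have h2p := h2 p hp
    obtain ⟨k1, k2, k3, k4, k5⟩ := hp
    exact ⟨(MS.occ_congr' fun j h3 h4 => hl j (by omega) (by omega)).2 k1, h2p,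
      (MS.occ_congr' fun j h3 h4 => hr j (by omega) (by omega)).2 k3,
      (MS.occ_congr' fun j h3 h4 => hr j (by omega) (by omega)).2 k4,
      fun h6 => k5 ((MS.occ_congr' fun j h3 h4 => hr j (by omega) (by omega)).1 h6)⟩

/-- near a site nothing but its content is changed -/
private theorem fB_mod {A : Type} {T : TB A} {x y : ℤ → A} (hm : (fB T).Mod x y) {p : ℤ}
    (hp : sB T x p) {j : ℤ} (h1 : p - 3 * T.S.μ - 1 ≤ j) (h2 : j < p + T.n + 3 * T.S.μ + 1)
    (h3 : j < p ∨ p + T.n ≤ j) : y j = x j := by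
  apply hm.1
  intro q hq hj
  by_cases hne : q = p
  · omega
  · rcases lt_or_gt_of_ne hne with h | h
    · have := sB_dist hq hp h
      omega
    · have := sB_dist hp hq h
      omega

private theorem fB_label {A : Type} (T : TB A) (rr : Fin (T.S.μ + 1) → A) :
    (fB T).Good (fun x p => True ∧ cont (T.S.μ + 1) x (p + T.n + 2 * T.S.μ) = rr) where
  sh x n p _ := by
    simp only [cont_sh, true_and]
    rw [show p + T.n + 2 * T.S.μ + n = p + n + T.n + 2 * T.S.μ by ring]
  loc := by
    refine ⟨T.n + 3 * T.S.μ + 1, fun x y p h _ hc => ⟨trivial, ?_⟩⟩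
    push_cast at h
    rw [← hc.2]
    exact cont_congr fun i h4 h5 => (h _ (by omega) (by push_cast at h5; omega)).symm
  inv x y hm p hp hc := by
    refine ⟨trivial, ?_⟩
    rw [← hc.2]
    exact cont_congr fun i h4 h5 => fB_mod hm hp (by omega) (by push_cast at h5; omega)
      (Or.inr (by omega))

private theorem fB_CM {A : Type} (T : TB A) :
    (fB T).Good (fun x p => T.S.occ T.M x (p - 2 * T.S.μ)) where
  sh x n p _ := by
    simp only [MS.occ_sh]
    rw [show p - 2 * T.S.μ + n = p + n - 2 * T.S.μ by ring]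
  loc := by
    refine ⟨2 * T.S.μ, fun x y p h _ hc => ?_⟩
    push_cast at h
    exact (MS.occ_congr' fun j h4 h5 => h j (by omega) (by omega)).1 hc
  inv x y hm p hp hc := by
    have hμ := T.S.hμ
    exact (MS.occ_congr' fun j h4 h5 => fB_mod hm hp (by omega) (by omega)
      (Or.inl (by omega))).2 hc

open Classical in
/-- the right part of the large window -/
private noncomputable def yB {A : Type} (T : TB A) (rr : Fin (T.S.μ + 1) → A) : ℤ → A := fun i =>
  if i < T.n + T.S.μ then T.S.wd T.v (i - T.n)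
  else if i < T.n + 2 * T.S.μ then T.S.wd T.M (i - T.n - T.S.μ)
  else rr 0

private theorem fB_step1 {A : Type} [Finite A] (T : TB A) {N : Subgroup (AutG A)} [N.Normal]
    (hK : KR T.S N (T.n + 2 * T.S.μ + 1)) {a b c : Fin T.n → A} (ha : a ∈ T.Z) (hb : b ∈ T.Z)
    (hc : c ∈ T.Z) (habc : D3 a b c) :
    InN N (actf ((fB T).ctl (fun _ _ => True) (tc a b c))) := by
  have hμ := T.S.hμ
  refine InN_label (F := fB T) (R := Fin (T.S.μ + 1) → A)
    (fun x p => cont (T.S.μ + 1) x (p + T.n + 2 * T.S.μ)) (fB_label T)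
    (Fam.ok_tc (F := fB T) ha hb hc) fun rr => ?_
  refine cross_InN (F := fB T) (l' := T.n + 2 * T.S.μ + 1) (s := 0)
    (F' := T.S.FA T.u (T.n + 2 * T.S.μ + 1) (fun i => rr i.succ))
    (C' := fun _ _ => True) (y := yB T rr) (by omega) habc (fB_label T rr) (Fam.good_true _)
    ha hb hc ?_ ?_ ?_
  · intro x p hp hC _
    obtain ⟨k1, k2, k3, k4, k5⟩ := id hp
    rw [Nat.cast_zero, sub_zero]
    refine ⟨⟨k1, fun q h1 h2 h3 => ?_, ?_⟩, trivial, ?_⟩
    · have := sB_occ hp h3 h1
      push_cast at h2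
      omega
    · funext i
      have e2 := congrFun hC.2 i.succ
      change x _ = rr i.succ
      rw [← e2]
      simp only [cont]
      congr 1
      push_cast [Fin.val_succ]
      ring
    · refine cont_emb (by omega) (by rw [Nat.cast_zero, add_zero]) fun i h1 h2 h3 => ?_
      push_cast at h2 h3
      unfold yB
      by_cases c1 : i < T.n + T.S.μ
      · rw [if_pos c1, ← k3 (i - T.n) (by omega) (by omega)]
        congr 1; ring
      rw [if_neg c1]
      by_cases c2 : i < T.n + 2 * T.S.μ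
      · rw [if_pos c2, ← k4 (i - T.n - T.S.μ) (by omega) (by omega)]
        congr 1; ring
      rw [if_neg c2, ← hC.2]
      simp only [cont]
      congr 1
      simp
      omega
  · intro x p hp _ he hz
    rw [Nat.cast_zero, sub_zero] at hp he
    obtain ⟨k1, k2, k3⟩ := hp
    obtain ⟨e1, e2⟩ := emb_cont (by omega) he
    push_cast at e2
    have hy : ∀ i : ℤ, T.n ≤ i → i < T.n + 2 * T.S.μ + 1 → x (p + i) = yB T rr i := by
      intro i h1 h2
      exact e2 i (by omega) (by omega) (by omega)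
    have hzZ : cont T.n x p ∈ T.Z := by
      rcases hz with h | h | h <;> rw [h] <;> assumption
    refine ⟨⟨k1, hzZ, ?_, ?_, ?_⟩, trivial, ?_⟩
    · intro i h1 h2
      rw [show p + T.n + i = p + (T.n + i) by ring, hy _ (by omega) (by omega), yB,
        if_pos (by omega)]
      congr 1; ring
    · intro i h1 h2
      rw [show p + T.n + T.S.μ + i = p + (T.n + T.S.μ + i) by ring, hy _ (by omega) (by omega),
        yB, if_neg (by omega), if_pos (by omega)]
      congr 1; ring
    · exact k2 _ (by omega) (by push_cast; omega)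
    · funext i
      refine Fin.cases ?_ (fun i => ?_) i
      · have := hy (T.n + 2 * T.S.μ) (by omega) (by omega)
        rw [yB, if_neg (by omega), if_neg (by omega)] at this
        rw [← this]
        simp only [cont]
        congr 1
        simp
        ring
      · have := congrFun k3 i
        simp only [cont] at this ⊢
        rw [← this]
        congr 1
        push_cast [Fin.val_succ]
        ring
  · intro m1 m2 m3
    have hE := emb_inj (A := A) (l := T.n) (l' := T.n + 2 * T.S.μ + 1) (s := 0) (y := yB T rr)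
      (by omega)
    exact hK T.u _ T.hu4 _ _ _ m1 m2 m3 ⟨hE.ne habc.1, hE.ne habc.2.1, hE.ne habc.2.2⟩

/-- RIGHT DEEPNESS, step (R1a) -/
theorem TB.R1a {A : Type} [Finite A] (T : TB A) {N : Subgroup (AutG A)} [N.Normal] (h5 : T.Five)
    (hK : KR T.S N (T.n + 2 * T.S.μ + 1)) {a b c : Fin T.n → A} (ha : a ∈ T.Z) (hb : b ∈ T.Z)
    (hc : c ∈ T.Z) (habc : D3 a b c) :
    InN N (actf (T.F.ctl (fun x p => ¬ T.S.occ T.u x (p + T.n + 2 * T.S.μ)) (tc a b c))) := by
  obtain ⟨d, hd, e, he, h2, h3, h4⟩ := h5 a b c ha hb hc habc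
  have step1 := fB_step1 T hK ha hb hd ⟨habc.1, h2.1, h3.1⟩
  have step2 : InN N (actf ((fB T).ctl (fun x p => T.S.occ T.M x (p - 2 * T.S.μ))
      (tc a b c))) :=
    sub_ctl (F := fB T) (fB T).good_true (fB_CM T) (fun _ _ _ _ => trivial) ha hb hc hd he
      habc h2 h3 h4 step1
  have step3 : T.F.ctl (fun x p => ¬ T.S.occ T.u x (p + T.n + 2 * T.S.μ)) (tc a b c) =
      (fB T).ctl (fun x p => T.S.occ T.M x (p - 2 * T.S.μ)) (tc a b c) := by
    refine Fam.ctl_congr (fun x p => ?_) _
    constructor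
    · rintro ⟨⟨k1, k2, k3, k4, k5⟩, k6⟩
      exact ⟨⟨k2, k3, k4, k5, k6⟩, k1⟩
    · rintro ⟨⟨k2, k3, k4, k5, k6⟩, k1⟩
      exact ⟨⟨k1, k2, k3, k4, k5⟩, k6⟩
  rw [step3]
  exact step2

end Pool.Agent.TH27.FS
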